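import Pool.Agent.H.MP_48a29b_ag.Defs

set_option autoImplicit false

namespace Pool.Agent.H.MP_c6dab2_ag

/-- The big height: the largest height of a minimal prime of `I`. -/
noncomputable def bight {R : Type} [CommRing R] (I : Ideal R) : ℕ∞ := ⨆ P ∈ I.minimalPrimes, P.height

end Pool.Agent.H.MP_c6dab2_ag
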